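import Pool.Agent.U292.PS.Amp

/-!
# A primitive symplectic variety with a nontrivial nef line bundle `L`, `q_X(L) = 0`, which does not
# induce a Lagrangian fibration

Let `U = ℂ²`, let `b` be any basis of `U` over `ℝ`, `N₁ = ℤ b₀ + ℤ b₁`, `N₂ = ℤ b₂ + ℤ b₃`,
`N = N₁ ⊕ N₂`, so that `A = U / N` is an arbitrary complex torus of dimension 2 with a decomposition
of its lattice (for instance `A = E₁ × E₂`). Let
`Λ = {(x, y) ∈ N × N : x - y ∈ N₁ + 2 N₂}`; the complex torus `T = (U × U) / Λ` of dimension 4 is
isogenous to `A × A`. The dihedral group of order eight acts on `U × U` by signed permutations of the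
two factors; it is generated by `(x, y) ↦ (-y, x)` and `(x, y) ↦ (x, -y)`. Let `Γ` be the group of the
affine maps `v ↦ m v + c`, where `m` is a signed permutation, `c ∈ Λ` if `det m = 1` and
`c ∈ (b₀ / 2, b₀ / 2 + b₂) + Λ` if `det m = -1`; all elements with `det m = -1` act without fixed
points (glide reflections; both classes of reflections become glide reflections at the same time,
which is impossible for crystallographic groups of the plane with this point group).

The quotient `X = (U × U) / Γ` of `T` by the dihedral group is a primitive symplectic variety of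
dimension 4 with isolated singularities, and it has an étale double cover. The character `det` of
`Γ` gives a line bundle `L` on `X` which is not isomorphic to `O_X`, while `L ⊗ L = O_X`. It is nef, it
has `q_X(L) = 0`, and it does not induce any holomorphic Lagrangian fibration: Q1 is false for `X` and
`L` in the sense in which it is stated (`L ≇ O_X`), and the conjecture has to be stated for
line bundles which are not torsion. (For those it holds for this `X`, by the starting result
`TorusQuotients`.) For the Gaussian lattice `N = ℤ[i]²` the variety `X` is projective: there is a line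
bundle with a positive Chern form, given by an explicit factor of automorphy.

`IsPrimitiveSymplectic`, `LineBundle`, `LineBundle.pow` and `LineBundle.IsTrivial` are defined in
`Pool.Agent.W594.SYZ.Defs2`; `IsChernForm`, `IsNefForm`, `IsDegenerateForm`, `IsLagrangianFibration`
and `Induces` in `Pool.Agent.W594.SYZ.TQDefs`. The group `Γ` is constructed in
`Pool.Agent.U292.PS.Grp`, the ample line bundle in `Pool.Agent.U292.PS.Amp`.
-/

set_option autoImplicit false

namespace Pool.Agent.Results.MP_63735c_ag.NontrivialTorsion

open Pool.Agent.W594.SYZ2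

/-- There are a projective primitive symplectic variety `X = V / Γ`, the quotient of a complex torus
of dimension 4 by a finite group, and a line bundle `L` on `X` with the Chern form `0` (so `L` is nef
and `q_X(L) = 0`) which is not isomorphic to `O_X` and does not induce any holomorphic Lagrangian
fibration; `L ⊗ L` is trivial. -/
theorem result : ∃ (V : Type) (_ : NormedAddCommGroup V) (_ : NormedSpace ℂ V)
    (Γ : Subgroup (V ≃ᵃ[ℂ] V)) (L : LineBundle Γ),
      Module.finrank ℂ V = 4 ∧ IsPrimitiveSymplectic Γ ∧
      (∃ (A : LineBundle Γ) (HA : V → V → ℂ), IsChernForm A HA ∧ IsPositiveForm HA) ∧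
      IsChernForm L (fun _ _ => 0) ∧ IsNefForm (fun _ _ : V => 0) ∧
      IsDegenerateForm (fun _ _ : V => 0) ∧ ¬ L.IsTrivial ∧ (L.pow 2).IsTrivial ∧
      ∀ (W : Type) [NormedAddCommGroup W] [NormedSpace ℂ W] (Δ : Subgroup (W ≃ᵃ[ℂ] W))
        (π : V →ₗ[ℂ] W), IsLagrangianFibration Γ Δ π → ¬ Induces L Δ π := by
  refine ⟨Pool.Agent.U292.PS.V, inferInstance, inferInstance,
    Pool.Agent.U292.PS.Γ Pool.Agent.U292.PS.gb,
    Pool.Agent.U292.PS.detBundle _, by simp, Pool.Agent.U292.PS.prim,
    ⟨Pool.Agent.U292.PS.ample, _, Pool.Agent.U292.PS.ample_chern, Pool.Agent.U292.PS.H16_pos⟩,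
    Pool.Agent.U292.PS.chern_zero, fun v => by simp, ⟨(fun _ => 1, 0), ?_, fun _ => rfl⟩,
    Pool.Agent.U292.PS.not_trivial, Pool.Agent.U292.PS.trivial_even even_two,
    fun W _ _ Δ π hL => Pool.Agent.U292.PS.not_induces hL⟩
  intro h
  have := congrFun (congrArg Prod.fst h) 0
  simp at this

end Pool.Agent.Results.MP_63735c_ag.NontrivialTorsion
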